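import Mathlib
import Pool.Agent.R627.SympFin
import Pool.Agent.R627.SympRestr
import Pool.Agent.R627.MumfordG

/-!
# A Mumford group with circle centre that is not a generalized Heisenberg group
-/

set_option autoImplicit false
set_option linter.style.haveILetI false

namespace Pool.Agent.Results.MP_9969af_al.NotHeisenberg

open Topology Filter Set Pool.Agent.R627.SympRestr Pool.Agent.R627.MumfordG

/-- The odd primes. -/
def Idx : Type := {p : ℕ // p.Prime ∧ p ≠ 2}

instance : Countable Idx := inferInstanceAs (Countable {p : ℕ // p.Prime ∧ p ≠ 2})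

instance : Infinite Idx := by
  have h1 : {p : ℕ | p.Prime ∧ p ≠ 2}.Infinite := by
    have h2 : {p : ℕ | p.Prime ∧ p ≠ 2} = {p : ℕ | p.Prime} \ {2} := by
      ext p; rfl
    rw [h2]
    exact Nat.infinite_setOfPred_prime.sdiff (Set.finite_singleton 2)
  exact h1.to_subtype

instance (i : Idx) : NeZero i.1 := ⟨i.2.1.ne_zero⟩

/-- The family of finite symplectic groups with their Lagrangian subgroups. -/
noncomputable def S : Sys Idx where
  K i := Pool.Agent.R627.SympFin.Kp i.1
  grp i := inferInstance
  fin i := inferInstance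
  L i := Pool.Agent.R627.SympFin.L i.1
  B i := Pool.Agent.R627.SympFin.B i.1
  add_left i := Pool.Agent.R627.SympFin.B_add_left i.1
  add_right i := Pool.Agent.R627.SympFin.B_add_right i.1
  self i := Pool.Agent.R627.SympFin.B_self i.1
  perp i := Pool.Agent.R627.SympFin.L_perp i.1
  perfect i := Pool.Agent.R627.SympFin.perfect i.1
  nondeg i _ h := Pool.Agent.R627.SympFin.nondeg i.1 h
  n i := (i.1 ^ 8 + 1) / 2
  half i x y := by
    have hodd : i.1 % 2 = 1 := Nat.odd_iff.mp (i.2.1.odd_of_ne_two i.2.2)
    have h2 : (i.1 ^ 8) % 2 = 1 := by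
      rw [Nat.pow_mod, hodd]
    have h3 : (i.1 ^ 8 + 1) / 2 + (i.1 ^ 8 + 1) / 2 = i.1 ^ 8 + 1 := by omega
    have h4 : (i.1 ^ 8) • Pool.Agent.R627.SympFin.B i.1 x y = 0 := by
      have h5 : (i.1 ^ 8) • Pool.Agent.R627.SympFin.Bl i.1 y x = 0 := by
        rw [← map_nsmul, Pool.Agent.R627.SympFin.exponent, map_zero]
      exact h5
    rw [← add_smul, h3, add_smul, h4, one_smul, zero_add]

theorem no_proj (p : R S →+ R S) (hp : Continuous p) (hpp : ∀ x, p (p x) = p x)
    (hB : ∀ x y, nab (p x) y + nab x (p y) = nab x y) : False := by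
  classical
  -- components
  have hcomp : ∀ (i : Idx) (k : S.K i), p (single i k) = single i (co S i (p (single i k))) := by
    intro i k
    refine R_ext fun j => ?_
    by_cases hj : j = i
    · subst hj
      rw [co_single_same]
    · rw [co_single_ne hj]
      have h1 : (i.1 ^ 8) • co S j (p (single i k)) = 0 := by
        have h3 : (i.1 ^ 8) • k = 0 := Pool.Agent.R627.SympFin.exponent i.1 k
        rw [← map_nsmul, ← map_nsmul, ← map_nsmul, h3, map_zero, map_zero, map_zero]
      have h2 : (j.1 ^ 8) • co S j (p (single i k)) = 0 :=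
        Pool.Agent.R627.SympFin.exponent j.1 _
      have hne : i.1 ≠ j.1 := fun h => hj (Subtype.ext h.symm)
      have hco : Nat.Coprime (i.1 ^ 8) (j.1 ^ 8) :=
        Nat.Coprime.pow _ _ ((Nat.coprime_primes i.2.1 j.2.1).mpr hne)
      have h3 : addOrderOf (co S j (p (single i k))) ∣ 1 := by
        rw [← hco.gcd_eq_one]
        exact Nat.dvd_gcd (addOrderOf_dvd_of_nsmul_eq_zero h1)
          (addOrderOf_dvd_of_nsmul_eq_zero h2)
      exact AddMonoid.addOrderOf_eq_one_iff.mp (Nat.dvd_one.mp h3)
  -- integrality for almost all primes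
  have h1 : p ⁻¹' (C ∅ : Set (R S)) ∈ 𝓝 (0 : R S) := by
    apply hp.continuousAt.preimage_mem_nhds
    rw [map_zero]
    exact C_mem_nhds
  obtain ⟨F, hF⟩ := exists_U h1
  obtain ⟨i, hi⟩ := Infinite.exists_notMem_finset F
  let P : S.K i →+ S.K i := ((co S i).comp p).comp (single i)
  have hP : ∀ k, P k = co S i (p (single i k)) := fun k => rfl
  have q1 : ∀ x : S.K i, P (P x) = P x := by
    intro x
    rw [hP x, hP, ← hcomp, hpp]
  have q2 : ∀ x : S.K i, x ∈ S.L i → P x ∈ S.L i := by
    intro x hx
    have h2 : single i x ∈ U S F := by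
      refine ⟨fun j => ?_, fun j hj => ?_⟩
      · by_cases hj : j = i
        · subst hj
          rw [co_single_same]
          exact hx
        · rw [co_single_ne hj]
          exact (S.L j).zero_mem
      · have hji : j ≠ i := fun h => hi (h ▸ hj)
        exact co_single_ne hji x
    exact hF h2 i (Finset.notMem_empty i)
  have q3 : ∀ x y : S.K i, S.B i (P x) y + S.B i x (P y) = S.B i x y := by
    intro x y
    have h2 := hB (single i x) (single i y)
    rw [nab_single_right, nab_single, nab_single, co_single_same] at h2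
    exact h2
  exact Pool.Agent.R627.SympFin.no_splitting i.1 i.2.1 P q1 q2 q3

/-- There is a locally compact Mumford group with centre isomorphic to the circle group that is not
a generalized Heisenberg group. -/
theorem result.{u} : ∃ (G : Type) (_ : Group G) (_ : TopologicalSpace G),
    IsMumfordGroup G ∧ ¬ IsGeneralizedHeisenberg.{u, 0} G := by
  refine ⟨G S, inferInstance, inferInstance, isMumford, ?_⟩
  rintro ⟨A, E, F, _, _, _, _, _, _, _, _, _, ω, -, ⟨h⟩⟩
  obtain ⟨p, hp, hpp, hB⟩ := exists_proj ω h
  exact no_proj p hp hpp hB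

end Pool.Agent.Results.MP_9969af_al.NotHeisenberg
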